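import Pool.Agent.N236.RT.App

/-! Project RT (helper236), IMP: fields with a subfield (helper701). -/

set_option autoImplicit false

namespace Pool.Agent.N701.RT

open NumberField Module Pool.Agent.N236.RT Polynomial

theorem t_IMP : S_IMP := by
  intro k₀ k E₀ _ _ _ _ _ _ _ _ S x hx hroot hS hext
  let _ : Algebra k₀ E₀ := ((algebraMap k E₀).comp (algebraMap k₀ k)).toAlgebra
  have : IsScalarTower k₀ k E₀ := IsScalarTower.of_algebraMap_eq (fun _ => rfl)
  -- an embedding with absolute value different from one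
  obtain ⟨σ, hσ⟩ : ∃ σ : E₀ →+* ℂ, ‖σ x‖ ≠ 1 := by
    by_contra hcon
    push Not at hcon
    obtain ⟨n, hn, h1⟩ := NumberField.Embeddings.pow_eq_one_of_norm_eq_one E₀ ℂ hx.2.1 hcon
    exact hroot n hn h1
  obtain ⟨τ, hτS, hτ⟩ := hext ((σ.comp (algebraMap k E₀)).comp (algebraMap k₀ k))
  -- extension of `τ`
  obtain ⟨σ', hσ'⟩ : ∃ σ' : E₀ →+* ℂ, σ'.comp (algebraMap k E₀) = τ := by
    let _ : Algebra k ℂ := τ.toAlgebra
    have : Algebra.IsAlgebraic k E₀ := inferInstance
    exact ⟨(IsAlgClosed.lift (R := k) (S := E₀) (M := ℂ) : E₀ →ₐ[k] ℂ).toRingHom,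
      RingHom.ext fun a => (IsAlgClosed.lift (R := k) (S := E₀) (M := ℂ) : E₀ →ₐ[k] ℂ).commutes a⟩
  have hx1 : ‖σ' x‖ = 1 := hS σ' (by rw [hσ']; exact hτS)
  have hk0 : σ'.comp (algebraMap k₀ E₀) = σ.comp (algebraMap k₀ E₀) := by
    have h1 : σ'.comp (algebraMap k₀ E₀) = (σ'.comp (algebraMap k E₀)).comp (algebraMap k₀ k) := rfl
    rw [h1, hσ', hτ]
    rfl
  obtain ⟨z, hz⟩ := Field.exists_primitive_element k₀ E₀
  have hzi : IsIntegral k₀ z := IsIntegral.of_finite k₀ z
  have hq : ∀ y : E₀, ∃ q : k₀[X], aeval z q = y := by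
    intro y
    have h1 : y ∈ IntermediateField.adjoin k₀ {z} := by rw [hz]; trivial
    rw [← IntermediateField.mem_toSubalgebra,
      IntermediateField.adjoin_simple_toSubalgebra_of_isAlgebraic hzi.isAlgebraic,
      Algebra.adjoin_singleton_eq_range_aeval] at h1
    obtain ⟨q, h2⟩ := h1
    exact ⟨q, h2⟩
  let _ : Algebra E₀ ℂ := σ.toAlgebra
  have halg : ∀ a : E₀, algebraMap E₀ ℂ a = σ a := fun _ => rfl
  have hev : ∀ q : k₀[X], σ' (aeval z q) = aeval (σ' z) (q.map (algebraMap k₀ E₀)) := by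
    intro q
    rw [aeval_def, Polynomial.hom_eval₂, hk0, aeval_def, Polynomial.eval₂_map]
    rfl
  set F : IntermediateField E₀ ℂ := IntermediateField.adjoin E₀ {σ' z} with hF
  have hroot2 : aeval (σ' z) ((minpoly k₀ z).map (algebraMap k₀ E₀)) = 0 := by
    rw [← hev, minpoly.aeval, map_zero]
  have hmon : ((minpoly k₀ z).map (algebraMap k₀ E₀)).Monic := (minpoly.monic hzi).map _
  have hint : IsIntegral E₀ (σ' z) := ⟨_, hmon, hroot2⟩
  have : FiniteDimensional E₀ F := IntermediateField.adjoin.finiteDimensional hint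
  have : FiniteDimensional ℚ F := FiniteDimensional.trans ℚ E₀ F
  have hmem : ∀ y : E₀, σ' y ∈ F := by
    intro y
    obtain ⟨q, rfl⟩ := hq y
    rw [hev]
    have h1 := Polynomial.aeval_algebraMap_apply ℂ
      (⟨σ' z, IntermediateField.mem_adjoin_simple_self E₀ (σ' z)⟩ : F) (q.map (algebraMap k₀ E₀))
    have h2 : algebraMap F ℂ ⟨σ' z, IntermediateField.mem_adjoin_simple_self E₀ (σ' z)⟩ = σ' z := rfl
    rw [h2] at h1
    rw [h1]
    exact (aeval (⟨σ' z, IntermediateField.mem_adjoin_simple_self E₀ (σ' z)⟩ : F)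
      (q.map (algebraMap k₀ E₀))).2
  refine ⟨F, inferInstance, ⟨⟩, algebraMap E₀ F, σ'.codRestrict F hmem, ?_, ?_⟩
  · intro r s hrs
    have h1 : σ x ^ r * σ' x ^ s = 1 := by
      have h2 := congrArg (algebraMap F ℂ) hrs
      rw [map_mul, map_zpow₀, map_zpow₀, map_one] at h2
      exact h2
    have hx0 : 0 < ‖σ x‖ := norm_pos_iff.2 ((map_ne_zero σ).2 hx.1)
    have h2 : ‖σ x‖ ^ r = 1 := by
      have h3 := congrArg norm h1
      rw [norm_mul, norm_zpow, norm_zpow, hx1, one_zpow, mul_one, norm_one] at h3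
      exact h3
    have hr : r = 0 := (zpow_eq_one_iff_right₀ hx0.le hσ).1 h2
    refine ⟨hr, ?_⟩
    rw [hr, zpow_zero, one_mul, ← map_zpow₀, ← map_one σ'] at h1
    have h4 : x ^ s = 1 := σ'.injective h1
    by_contra hne
    have h5 : x ^ s.natAbs = 1 := by
      rcases Int.natAbs_eq s with h6 | h6
      · rw [h6, zpow_natCast] at h4
        exact h4
      · rw [h6, zpow_neg, zpow_natCast, inv_eq_one] at h4
        exact h4
    exact hroot _ (Int.natAbs_pos.2 hne) h5
  · have h1 : finrank ℚ F = finrank ℚ E₀ * finrank E₀ F := (finrank_mul_finrank ℚ E₀ F).symm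
    rw [h1]
    refine Nat.mul_le_mul_left _ ?_
    rw [finrank_mul_finrank k₀ k E₀, hF, IntermediateField.adjoin.finrank hint]
    calc (minpoly E₀ (σ' z)).natDegree
        ≤ ((minpoly k₀ z).map (algebraMap k₀ E₀)).natDegree :=
          natDegree_le_of_dvd (minpoly.dvd _ _ hroot2) hmon.ne_zero
      _ ≤ (minpoly k₀ z).natDegree := natDegree_map_le
      _ ≤ finrank k₀ E₀ := minpoly.natDegree_le z

end Pool.Agent.N701.RT
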